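import Pool.Agent.Helper9.SK.St

/-!
# Project SK, module DIS: distribution of pairs modulo `d`
-/

set_option autoImplicit false

noncomputable section

namespace Pool.Agent.Helper67.SK

open Finset ArithmeticFunction MeasureTheory
open Pool.Agent.Helper9.SK
open Pool.Agent.Helper60.GP (IsB II Err JJ)
open Pool.Agent.Helper15.AB (Th)

private lemma wt_nn {ω : ℝ → ℝ} (h : IsB ω) (x : ℝ) (n : ℕ) : 0 ≤ wt ω x n :=
  mul_nonneg vonMangoldt_nonneg (h.nonneg _)

private lemma wt_le {ω : ℝ → ℝ} (h : IsB ω) (x : ℝ) (n : ℕ) : wt ω x n ≤ Λ n / 2 := by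
  unfold wt
  have h1 := h.le_half (Real.log (n / x))
  have h2 : (0 : ℝ) ≤ Λ n := vonMangoldt_nonneg
  nlinarith

private lemma th_eq (ω : ℝ → ℝ) (x : ℝ) : Th ω x = ∑ n ∈ II x, wt ω x n := rfl

private lemma th_nn {ω : ℝ → ℝ} (h : IsB ω) (x : ℝ) : 0 ≤ Th ω x := by
  rw [th_eq]
  exact sum_nonneg fun n _ => wt_nn h x n

/-- the weight of a residue class -/
private def WW (ω : ℝ → ℝ) (x : ℝ) (d r : ℕ) : ℝ := ∑ a ∈ (II x).filter (fun a => a % d = r), wt ω x a

private lemma WW_nn {ω : ℝ → ℝ} (h : IsB ω) (x : ℝ) (d r : ℕ) : 0 ≤ WW ω x d r :=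
  sum_nonneg fun n _ => wt_nn h x n

private lemma WW_err (ω : ℝ → ℝ) (x : ℝ) {d r : ℕ} (hr : r < d) :
    Err ω x d (r : ℤ) = |WW ω x d r - Th ω x / (Nat.totient d : ℝ)| := by
  unfold Err WW wt
  congr 3
  apply filter_congr
  intro n _
  rw [← Nat.modEq_iff_dvd]
  unfold Nat.ModEq
  rw [Nat.mod_eq_of_lt hr]
  exact eq_comm

private lemma card_cls (N d r : ℕ) :
    (((Icc 1 N).filter (fun a => a % d = r)).card : ℝ) ≤ N / d + 1 := by
  have h1 : ((Icc 1 N).filter (fun a => a % d = r)).card ≤ (range (N / d + 1)).card := by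
    apply card_le_card_of_injOn (fun a => a / d)
    · intro a ha
      simp only [coe_filter, mem_Icc, Set.mem_ofPred_eq] at ha
      simp only [coe_range, Set.mem_Iio]
      have := Nat.div_le_div_right (c := d) ha.1.2
      omega
    · intro a ha b hb hab
      simp only [coe_filter, mem_Icc, Set.mem_ofPred_eq] at ha hb
      simp only at hab
      rw [← Nat.div_add_mod a d, ← Nat.div_add_mod b d, hab, ha.2, hb.2]
  rw [card_range] at h1
  have h2 : (((Icc 1 N).filter (fun a => a % d = r)).card : ℝ) ≤ ((N / d : ℕ) : ℝ) + 1 := by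
    exact_mod_cast h1
  have h3 : ((N / d : ℕ) : ℝ) ≤ (N : ℝ) / d := Nat.cast_div_le
  linarith

private lemma WW_le {ω : ℝ → ℝ} (h : IsB ω) {x : ℝ} {d : ℕ} (r : ℕ) (hx : 1 ≤ x) (hd : 1 ≤ d)
    (hdx : (d : ℝ) ≤ x) : WW ω x d r ≤ 2 * x * Real.log (3 * x) / d := by
  have hd0 : (0 : ℝ) < d := by exact_mod_cast hd
  have hl : 0 ≤ Real.log (3 * x) := Real.log_nonneg (by linarith)
  have h1 : WW ω x d r ≤ ∑ a ∈ (II x).filter (fun a => a % d = r), Real.log (3 * x) / 2 := by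
    apply sum_le_sum
    intro a ha
    simp only [II, mem_filter, mem_Icc] at ha
    refine (wt_le h x a).trans ?_
    have h2 : (a : ℝ) ≤ 3 * x := (Nat.le_floor_iff (by linarith)).mp ha.1.2
    have h3 : (0 : ℝ) < a := by exact_mod_cast ha.1.1
    have h4 : Λ a ≤ Real.log a := vonMangoldt_le_log
    have h5 := Real.log_le_log h3 h2
    linarith
  rw [sum_const, nsmul_eq_mul] at h1
  have h2 : (((II x).filter (fun a => a % d = r)).card : ℝ) ≤ 4 * x / d := by
    refine (card_cls ⌊3 * x⌋₊ d r).trans ?_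
    have h3 : ((⌊3 * x⌋₊ : ℕ) : ℝ) ≤ 3 * x := Nat.floor_le (by linarith)
    have h4 : ((⌊3 * x⌋₊ : ℕ) : ℝ) / d ≤ 3 * x / d := div_le_div_of_nonneg_right h3 hd0.le
    have h5 : (1 : ℝ) ≤ x / d := by rwa [le_div_iff₀ hd0, one_mul]
    have h6 : 4 * x / d = 3 * x / d + x / d := by ring
    linarith
  refine h1.trans ((mul_le_mul_of_nonneg_right h2 (by linarith)).trans (le_of_eq ?_))
  ring

/-- the numbers which are not coprime to `d` -/
private lemma pow_sum (p N : ℕ) (hp : p.Prime) (hN : 1 ≤ N) :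
    ∑ a ∈ (Icc 1 N).filter (fun a => p ∣ a), Λ a ≤ Real.log N := by
  have h1 : ∑ a ∈ (Icc 1 N).filter (fun a => p ∣ a), Λ a ≤
      ∑ a ∈ (Icc 1 (Nat.log p N)).image (fun j => p ^ j), Λ a := by
    have h2 : ∑ a ∈ ((Icc 1 N).filter (fun a => p ∣ a)).filter (fun a => Λ a ≠ 0), Λ a =
        ∑ a ∈ (Icc 1 N).filter (fun a => p ∣ a), Λ a := sum_filter_ne_zero _
    rw [← h2]
    apply sum_le_sum_of_subset_of_nonneg
    · intro a ha
      simp only [mem_filter, mem_Icc] at ha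
      obtain ⟨⟨⟨ha1, ha2⟩, ha3⟩, ha4⟩ := ha
      have h5 := vonMangoldt_ne_zero_iff.mp ha4
      obtain ⟨q, k, hq, hk, hqk⟩ := h5
      have hq' : q.Prime := hq.nat_prime
      rw [← hqk] at ha3
      have h6 : p ∣ q := hp.dvd_of_dvd_pow ha3
      have h7 : p = q := (Nat.prime_dvd_prime_iff_eq hp hq').mp h6
      rw [mem_image]
      refine ⟨k, ?_, by rw [h7, hqk]⟩
      rw [mem_Icc]
      refine ⟨hk, ?_⟩
      apply (Nat.le_log_iff_pow_le hp.one_lt (by omega)).mpr
      rw [h7, hqk]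
      exact ha2
    · intro a _ _
      exact vonMangoldt_nonneg
  refine h1.trans ?_
  rw [sum_image (fun a _ b _ hab => Nat.pow_right_injective hp.two_le hab)]
  have h3 : ∀ j ∈ Icc 1 (Nat.log p N), Λ (p ^ j) = Real.log p := by
    intro j hj
    rw [mem_Icc] at hj
    rw [vonMangoldt_apply_pow (by omega), vonMangoldt_apply_prime hp]
  rw [sum_congr rfl h3, sum_const, Nat.card_Icc, nsmul_eq_mul, Nat.add_sub_cancel]
  have h4 : p ^ Nat.log p N ≤ N := Nat.pow_log_le_self p (by omega)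
  have h5 : ((p : ℝ)) ^ Nat.log p N ≤ N := by exact_mod_cast h4
  have hp0 : (0 : ℝ) < p := by exact_mod_cast hp.pos
  have h6 := Real.log_le_log (pow_pos hp0 _) h5
  rwa [Real.log_pow] at h6

private lemma ncop {ω : ℝ → ℝ} (h : IsB ω) {x : ℝ} (d : ℕ) (hx : 1 ≤ x) (hd : 1 ≤ d) :
    ∑ a ∈ (II x).filter (fun a => ¬ Nat.Coprime a d), wt ω x a ≤
      d.primeFactors.card * Real.log (3 * x) := by
  have hN : 1 ≤ ⌊3 * x⌋₊ := Nat.le_floor (by push_cast; linarith)
  have hL : Real.log (⌊3 * x⌋₊ : ℕ) ≤ Real.log (3 * x) :=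
    Real.log_le_log (by exact_mod_cast hN) (Nat.floor_le (by linarith))
  have h1 : ∑ a ∈ (II x).filter (fun a => ¬ Nat.Coprime a d), wt ω x a ≤
      ∑ a ∈ (II x).filter (fun a => ¬ Nat.Coprime a d), Λ a := by
    apply sum_le_sum
    intro a _
    have h2 := wt_le h x a
    have h3 : (0 : ℝ) ≤ Λ a := vonMangoldt_nonneg
    linarith
  refine h1.trans ?_
  have h2 : ∑ a ∈ (II x).filter (fun a => ¬ Nat.Coprime a d), Λ a ≤
      ∑ a ∈ II x, ∑ p ∈ d.primeFactors, if p ∣ a then Λ a else 0 := by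
    rw [sum_filter]
    apply sum_le_sum
    intro a _
    have h0 : ∀ p ∈ d.primeFactors, (0 : ℝ) ≤ if p ∣ a then Λ a else 0 := by
      intro p _
      split_ifs
      · exact vonMangoldt_nonneg
      · exact le_refl _
    by_cases hc : Nat.Coprime a d
    · rw [if_neg (not_not.mpr hc)]
      exact sum_nonneg h0
    · rw [if_pos hc]
      obtain ⟨p, hp, h1, h2⟩ := Nat.Prime.not_coprime_iff_dvd.mp hc
      have h3 := single_le_sum h0 (Nat.mem_primeFactors.mpr ⟨hp, h2, by omega⟩)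
      rwa [if_pos h1] at h3
  refine h2.trans ?_
  rw [sum_comm, ← nsmul_eq_mul]
  apply sum_le_card_nsmul
  intro p hp
  rw [← sum_filter]
  exact (pow_sum p _ (Nat.prime_of_mem_primeFactors hp) hN).trans hL

private lemma dvd_mod (v d a b : ℕ) :
    d ∣ v + ff (a % d) * ff (b % d) ↔ d ∣ v + ff a * ff b := by
  have h1 : ∀ u : ℕ, ff (u % d) ≡ ff u [MOD d] := by
    intro u
    unfold ff
    have h := Nat.mod_modEq u d
    exact ((h.pow 2).add h).add_right 1
  have h2 : v + ff (a % d) * ff (b % d) ≡ v + ff a * ff b [MOD d] :=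
    ((h1 a).mul (h1 b)).add_left v
  rw [Nat.dvd_iff_mod_eq_zero, Nat.dvd_iff_mod_eq_zero]
  unfold Nat.ModEq at h2
  rw [h2]

/-- the reduced pairs -/
private def RP (v d : ℕ) : Finset (ℕ × ℕ) :=
  ((range d) ×ˢ (range d)).filter
    (fun w => Nat.Coprime w.1 d ∧ Nat.Coprime w.2 d ∧ d ∣ v + ff w.1 * ff w.2)

private def SP (x y : ℝ) (v d : ℕ) : Finset (ℕ × ℕ) :=
  ((II x) ×ˢ (II y)).filter
    (fun w => Nat.Coprime w.1 d ∧ Nat.Coprime w.2 d ∧ d ∣ v + ff w.1 * ff w.2)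

private lemma cop_mod (a d : ℕ) : Nat.Coprime (a % d) d ↔ Nat.Coprime a d := by
  unfold Nat.Coprime
  rw [Nat.gcd_comm (a % d) d, Nat.gcd_comm a d, Nat.gcd_rec d a, Nat.gcd_comm]
  

private lemma main_eq (ω : ℝ → ℝ) (x y : ℝ) (v d : ℕ) (hd : 1 ≤ d) :
    ∑ p ∈ SP x y v d, wt ω x p.1 * wt ω y p.2 =
      ∑ w ∈ RP v d, WW ω x d w.1 * WW ω y d w.2 := by
  have hmaps : ∀ p ∈ SP x y v d, ((p.1 % d, p.2 % d) : ℕ × ℕ) ∈ RP v d := by
    intro p hp
    simp only [SP, mem_filter] at hp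
    simp only [RP, mem_filter, mem_product, mem_range]
    refine ⟨⟨Nat.mod_lt _ (by omega), Nat.mod_lt _ (by omega)⟩, (cop_mod _ _).mpr hp.2.1,
      (cop_mod _ _).mpr hp.2.2.1, (dvd_mod v d p.1 p.2).mpr hp.2.2.2⟩
  rw [← sum_fiberwise_of_maps_to hmaps]
  apply sum_congr rfl
  rintro ⟨r, s⟩ hw
  simp only [RP, mem_filter, mem_product, mem_range] at hw
  have h1 : (SP x y v d).filter (fun p => ((p.1 % d, p.2 % d) : ℕ × ℕ) = (r, s)) =
      ((II x).filter (fun a => a % d = r)) ×ˢ ((II y).filter (fun a => a % d = s)) := by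
    ext ⟨a, b⟩
    simp only [SP, mem_filter, mem_product, Prod.mk.injEq]
    constructor
    · rintro ⟨⟨⟨h1, h2⟩, _⟩, h3, h4⟩
      exact ⟨⟨h1, h3⟩, h2, h4⟩
    · rintro ⟨⟨h1, h3⟩, h2, h4⟩
      refine ⟨⟨⟨h1, h2⟩, ?_, ?_, ?_⟩, h3, h4⟩
      · rw [← cop_mod, h3]; exact hw.2.1
      · rw [← cop_mod, h4]; exact hw.2.2.1
      · rw [← dvd_mod, h3, h4]; exact hw.2.2.2
  rw [h1, sum_product, WW, WW, sum_mul_sum]

private lemma ad_split {ω : ℝ → ℝ} (h : IsB ω) (x y : ℝ) (v d : ℕ) :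
    |Ad ω x y v d - ∑ p ∈ SP x y v d, wt ω x p.1 * wt ω y p.2| ≤
      (∑ a ∈ (II x).filter (fun a => ¬ Nat.Coprime a d), wt ω x a) * Th ω y +
      (∑ b ∈ (II y).filter (fun b => ¬ Nat.Coprime b d), wt ω y b) * Th ω x := by
  have e1 : Ad ω x y v d = ∑ p ∈ (II x) ×ˢ (II y),
      if d ∣ v + ff p.1 * ff p.2 then wt ω x p.1 * wt ω y p.2 else 0 := by
    rw [sum_product]
    rfl
  have e2 : ∑ p ∈ SP x y v d, wt ω x p.1 * wt ω y p.2 = ∑ p ∈ (II x) ×ˢ (II y),
      if Nat.Coprime p.1 d ∧ Nat.Coprime p.2 d ∧ d ∣ v + ff p.1 * ff p.2 then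
        wt ω x p.1 * wt ω y p.2 else 0 := by
    rw [SP, sum_filter]
  have e3 : (∑ a ∈ (II x).filter (fun a => ¬ Nat.Coprime a d), wt ω x a) * Th ω y +
      (∑ b ∈ (II y).filter (fun b => ¬ Nat.Coprime b d), wt ω y b) * Th ω x =
      ∑ p ∈ (II x) ×ˢ (II y), ((if ¬ Nat.Coprime p.1 d then wt ω x p.1 * wt ω y p.2 else 0) +
        if ¬ Nat.Coprime p.2 d then wt ω x p.1 * wt ω y p.2 else 0) := by
    rw [sum_add_distrib, sum_product, sum_product, th_eq, th_eq, sum_filter, sum_filter, sum_mul_sum,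
      mul_comm, sum_mul_sum]
    congr 1
    · apply sum_congr rfl
      intro a _
      apply sum_congr rfl
      intro b _
      dsimp only
      split_ifs <;> simp
    · apply sum_congr rfl
      intro a _
      apply sum_congr rfl
      intro b _
      dsimp only
      split_ifs <;> simp
  rw [e1, e2, e3, ← sum_sub_distrib]
  refine (abs_sum_le_sum_abs _ _).trans (sum_le_sum ?_)
  rintro ⟨a, b⟩ _
  dsimp only
  have h0 : 0 ≤ wt ω x a * wt ω y b := mul_nonneg (wt_nn h x a) (wt_nn h y b)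
  by_cases h1 : d ∣ v + ff a * ff b
  · rw [if_pos h1]
    by_cases h2 : Nat.Coprime a d
    · rw [if_neg (not_not.mpr h2)]
      by_cases h3 : Nat.Coprime b d
      · rw [if_neg (not_not.mpr h3), if_pos ⟨h2, h3, h1⟩, sub_self, abs_zero, add_zero]
      · rw [if_pos h3, if_neg (fun hh => h3 hh.2.1), sub_zero, abs_of_nonneg h0, zero_add]
    · rw [if_pos h2, if_neg (fun hh => h2 hh.1), sub_zero, abs_of_nonneg h0]
      have h5 : (0 : ℝ) ≤ if ¬ Nat.Coprime b d then wt ω x a * wt ω y b else 0 := by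
        by_cases h3 : Nat.Coprime b d
        · rw [if_neg (not_not.mpr h3)]
        · rw [if_pos h3]
          exact h0
      linarith
  · rw [if_neg h1, if_neg (fun hh => h1 hh.2.2), sub_zero, abs_zero]
    apply add_nonneg
    · by_cases h3 : Nat.Coprime a d
      · rw [if_neg (not_not.mpr h3)]
      · rw [if_pos h3]
        exact h0
    · by_cases h3 : Nat.Coprime b d
      · rw [if_neg (not_not.mpr h3)]
      · rw [if_pos h3]
        exact h0

/-- DIS. -/
theorem hDIS : StDis := by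
  intro ω x y e1 e2 K v d h hx hxy hd hdx hK he1 he2 hrho
  have hd0 : (0 : ℝ) < d := by exact_mod_cast hd
  have hy : 1 ≤ y := hx.trans hxy
  have hdy : (d : ℝ) ≤ y := hdx.trans hxy
  have hphi : 0 < Nat.totient d := Nat.totient_pos.mpr hd
  have hphi0 : (0 : ℝ) < (Nat.totient d : ℝ) := by exact_mod_cast hphi
  have hphid : (Nat.totient d : ℝ) ≤ d := by exact_mod_cast Nat.totient_le d
  have he1n : 0 ≤ e1 := (abs_nonneg _).trans (he1 1 isCoprime_one_left)
  have he2n : 0 ≤ e2 := (abs_nonneg _).trans (he2 1 isCoprime_one_left)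
  have hl : 0 ≤ Real.log (3 * x) := Real.log_nonneg (by linarith)
  have hTx := th_nn h x
  have hTy := th_nn h y
  set Tx := Th ω x with hTxd
  set Ty := Th ω y with hTyd
  set ph : ℝ := (Nat.totient d : ℝ) with hph
  -- the main part
  have hcard : ((RP v d).card : ℝ) = (rho v d : ℝ) := rfl
  have hmain : |∑ p ∈ SP x y v d, wt ω x p.1 * wt ω y p.2 - (rho v d : ℝ) / ph ^ 2 * (Tx * Ty)| ≤
      K * (e1 * Ty + 4 * x * Real.log (3 * x) * e2) := by
    rw [main_eq ω x y v d hd]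
    have e0 : (rho v d : ℝ) / ph ^ 2 * (Tx * Ty) = ∑ w ∈ RP v d, (Tx / ph) * (Ty / ph) := by
      rw [sum_const, nsmul_eq_mul, hcard]
      field_simp
    rw [e0, ← sum_sub_distrib]
    have h1 : ∀ w ∈ RP v d, |WW ω x d w.1 * WW ω y d w.2 - Tx / ph * (Ty / ph)| ≤
        e1 * (Ty / ph) + (2 * x * Real.log (3 * x) / d) * e2 := by
      rintro ⟨r, s⟩ hw
      simp only [RP, mem_filter, mem_product, mem_range] at hw
      have k1 : |WW ω x d r - Tx / ph| ≤ e1 := by
        rw [← WW_err ω x hw.1.1]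
        exact he1 r (Nat.isCoprime_iff_coprime.mpr hw.2.1)
      have k2 : |WW ω y d s - Ty / ph| ≤ e2 := by
        rw [← WW_err ω y hw.1.2]
        exact he2 s (Nat.isCoprime_iff_coprime.mpr hw.2.2.1)
      have k3 := WW_le h r hx hd hdx
      have k4 := WW_nn h x d r
      have k5 : WW ω x d r * WW ω y d s - Tx / ph * (Ty / ph) =
          (WW ω x d r - Tx / ph) * (Ty / ph) + WW ω x d r * (WW ω y d s - Ty / ph) := by ring
      dsimp only
      rw [k5]
      refine (abs_add_le _ _).trans ?_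
      rw [abs_mul, abs_mul, abs_of_nonneg k4, abs_of_nonneg (div_nonneg hTy hphi0.le)]
      exact add_le_add (mul_le_mul_of_nonneg_right k1 (div_nonneg hTy hphi0.le))
        (mul_le_mul k3 k2 (abs_nonneg _) (k4.trans k3))
    refine (abs_sum_le_sum_abs _ _).trans ((sum_le_sum h1).trans ?_)
    rw [sum_const, nsmul_eq_mul, hcard]
    have k6 : 0 ≤ e1 * (Ty / ph) + (2 * x * Real.log (3 * x) / d) * e2 := by positivity
    refine (mul_le_mul_of_nonneg_right hrho k6).trans ?_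
    have k7 : K * ph * (e1 * (Ty / ph) + (2 * x * Real.log (3 * x) / d) * e2) =
        K * (e1 * Ty + 2 * x * Real.log (3 * x) * e2 * (ph / d)) := by
      field_simp
    rw [k7]
    apply mul_le_mul_of_nonneg_left _ hK
    have k8 : ph / d ≤ 1 := by rw [div_le_one hd0]; exact hphid
    have k9 : 0 ≤ 2 * x * Real.log (3 * x) * e2 := by positivity
    have k10 := mul_le_mul_of_nonneg_left k8 k9
    linarith
  have hs := ad_split h x y v d
  have n1 := ncop h d hx hd
  have n2 := ncop h d hy hd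
  have n3 := mul_le_mul_of_nonneg_right n1 hTy
  have n4 := mul_le_mul_of_nonneg_right n2 hTx
  have tri := abs_sub_le (Ad ω x y v d) (∑ p ∈ SP x y v d, wt ω x p.1 * wt ω y p.2)
    ((rho v d : ℝ) / ph ^ 2 * (Tx * Ty))
  refine tri.trans ?_
  have e9 : (d.primeFactors.card : ℝ) * (Real.log (3 * x) * Ty + Real.log (3 * y) * Tx) =
      d.primeFactors.card * Real.log (3 * x) * Ty + d.primeFactors.card * Real.log (3 * y) * Tx := by
    ring
  rw [e9]
  linarith

end Pool.Agent.Helper67.SK
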